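import Mathlib
import Pool.Agent.P.MP_03a3ac_co.Defs
import Pool.Agent.P.MP_03a3ac_co.Cop

namespace Pool.Agent.Results.MP_03a3ac_co.MustLeave

open Pool.Agent.P.MP_03a3ac_co

/-- There are finite graphs `H` and `G` such that every graph containing `H` as a subgraph is
non-locatable, `H` is an induced subgraph of `G`, and the cop has a strategy on `G` that locates
every robber whose walk stays in the vertex set of a copy of `H` (as a subgraph). -/
theorem result : ∃ (n m : ℕ) (H : SimpleGraph (Fin n)) (G : SimpleGraph (Fin m)),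
    (∀ (W : Type) (G' : SimpleGraph W), H.IsContained G' → ¬ Locatable G') ∧
    H.IsIndContained G ∧
    ∃ σ : List ℕ∞ → Fin m, ∀ (φ : H.Copy G) (x : ℕ → Fin m), (∀ t, Legal G σ x t) →
      (∀ t, x t ∈ Set.range φ) → ∃ t, Located G σ x t := by
  refine ⟨8, 9, H, G0, fun W G' ⟨φ⟩ => forcing φ, ⟨emb⟩, σ0, fun φ x hx hr => ?_⟩
  refine cop_wins x hx fun t h => ?_
  obtain ⟨i, hi⟩ := hr t
  exact copy_avoids φ i (hi.trans h)

end Pool.Agent.Results.MP_03a3ac_co.MustLeave
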